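import Pool.Agent.Helper72.PC.Post
import Pool.Agent.Helper72.PC.Ram
import Pool.Agent.Helper30.TP.Ultra

/-!
# Descent of the post-critical form

`k ⊆ ℂ` algebraically closed, `F` an endomorphism of the plane over `k` whose critical curve has
its forward orbit (over `ℂ`) in an algebraic curve over `ℂ`. Then the algebraic data of
a post-critically finite map exist over `k`.
-/

set_option autoImplicit false

namespace Pool.Agent.Helper58.PC

open MvPolynomial
open Pool.Agent.Helper36 (step iter iter_zero iter_succ)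
open Pool.Agent.Helper30.TP
open Pool.Agent.Helper72.PC

variable {k E : Type} [Field k] [Field E] [Algebra k E]

theorem desc_step (F : Fin 3 → MvPolynomial (Fin 3) k) (x : Fin 3 → k) :
    step (fun i => map (algebraMap k E) (F i)) (fun i => algebraMap k E (x i)) =
      fun i => algebraMap k E (step F x i) := by
  funext i
  change eval (fun i => algebraMap k E (x i)) (map (algebraMap k E) (F i)) =
    algebraMap k E (eval x (F i))
  exact (eval₂_comp_right (algebraMap k E) (RingHom.id k) x (F i)).trans (by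
    rw [map_id, eval_map]
    rfl)|>.symm

theorem desc_iter (F : Fin 3 → MvPolynomial (Fin 3) k) (x : Fin 3 → k) (n : ℕ) :
    iter (fun i => map (algebraMap k E) (F i)) (fun i => algebraMap k E (x i)) n =
      fun i => algebraMap k E (iter F x n i) := by
  induction n with
  | zero => rfl
  | succ n ih => rw [iter_succ, ih, desc_step, iter_succ]

theorem desc_eval (P : MvPolynomial (Fin 3) k) (x : Fin 3 → k) :
    eval (fun i => algebraMap k E (x i)) (map (algebraMap k E) P) = algebraMap k E (eval x P) := by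
  have := congrFun (desc_step (E := E) (fun _ => P) x) 0
  exact this

theorem desc_jf (F : Fin 3 → MvPolynomial (Fin 3) k) :
    jf (fun i => map (algebraMap k E) (F i)) = map (algebraMap k E) (jf F) := by
  unfold jf
  rw [RingHom.map_det]
  congr 1
  ext i j
  change coeff _ (pderiv j (map (algebraMap k E) (F i))) =
    coeff _ (map (algebraMap k E) (pderiv j (F i)))
  rw [pderiv_map]

theorem desc_isEndo {d : ℕ} {F : Fin 3 → MvPolynomial (Fin 3) k}
    (hF : IsEndo d fun i => map (algebraMap k E) (F i)) : IsEndo d F := by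
  refine ⟨hF.two_le, fun i => (hF.hom i).of_map (algebraMap k E).injective, fun x hx => ?_⟩
  have h1 := hF.nz (fun i => algebraMap k E (x i)) fun i => by
    rw [desc_eval, hx i, map_zero]
  funext i
  have h2 := congrFun h1 i
  simpa using h2

/-- **Descent.** -/
theorem desc_form {F : Fin 3 → MvPolynomial (Fin 3) k} {G : MvPolynomial (Fin 3) E} {m : ℕ}
    (hG : G.IsHomogeneous m) (hG0 : G ≠ 0)
    (h : ∀ x : Fin 3 → E, eval x (jf fun i => map (algebraMap k E) (F i)) = 0 →
      ∀ n, eval (iter (fun i => map (algebraMap k E) (F i)) x n) G = 0) :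
    ∃ G' : MvPolynomial (Fin 3) k, G'.IsHomogeneous m ∧ G' ≠ 0 ∧
      ∀ x : Fin 3 → k, eval x (jf F) = 0 → ∀ n, eval (iter F x n) G' = 0 := by
  classical
  obtain ⟨u, hu⟩ := ne_zero_iff.1 hG0
  obtain ⟨ℓ, hℓ⟩ : ∃ ℓ : E →ₗ[k] k, ℓ (coeff u G) ≠ 0 := by
    by_contra hcon
    push Not at hcon
    exact hu ((Module.forall_dual_apply_eq_zero_iff k (coeff u G)).1 hcon)
  refine ⟨lam ℓ G, ultra_lam_hom ℓ hG, ?_, fun x hx n => ?_⟩
  · intro h0
    apply hℓ
    rw [← ultra_coeff_lam, h0, coeff_zero]
  · rw [ultra_eval_lam, ← desc_iter, h _ _ n, map_zero]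
    rw [desc_jf, desc_eval, hx, map_zero]

/-- The algebraic data over an algebraically closed field. -/
theorem exists_pcfdata_self [IsAlgClosed k] [CharZero k] {d : ℕ}
    {F : Fin 3 → MvPolynomial (Fin 3) k} (hF : IsEndo d F) {G : MvPolynomial (Fin 3) k} {m : ℕ}
    (hG : G.IsHomogeneous m) (hG0 : G ≠ 0)
    (h : ∀ x : Fin 3 → k, eval x (jf F) = 0 → ∀ n, eval (iter F x n) G = 0) :
    ∃ (g q c : MvPolynomial (Fin 3) k) (D e t E : ℕ), PCFdata F g q c D e t E := by
  obtain ⟨g, D, hg, hsq, hgF, hP⟩ := exists_post hF hG hG0 h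
  obtain ⟨q, c, e, t, E, hd⟩ := exists_data (L := k) hF.hom
    (fun x hx => hF.nz x fun i => hx i) hg hsq hgF hP
  exact ⟨g, q, c, D, e, t, E, hd⟩

/-- **The algebraic data of a post-critically finite map, over `k`.** -/
theorem exists_pcfdata [IsAlgClosed k] [CharZero k] {d : ℕ}
    {F : Fin 3 → MvPolynomial (Fin 3) k}
    (hF : IsEndo d fun i => map (algebraMap k E) (F i)) {G : MvPolynomial (Fin 3) E} {m : ℕ}
    (hG : G.IsHomogeneous m) (hG0 : G ≠ 0)
    (h : ∀ x : Fin 3 → E, eval x (jf fun i => map (algebraMap k E) (F i)) = 0 →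
      ∀ n, eval (iter (fun i => map (algebraMap k E) (F i)) x n) G = 0) :
    ∃ (g q c : MvPolynomial (Fin 3) k) (D e t E : ℕ), PCFdata F g q c D e t E := by
  obtain ⟨G', hG', hG'0, h'⟩ := desc_form hG hG0 h
  exact exists_pcfdata_self (desc_isEndo hF) hG' hG'0 h'

end Pool.Agent.Helper58.PC
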