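import Pool.Agent.Helper58.PC.Norm

/-!
# The equation of the post-critical hypersurface

`k` algebraically closed. If the form `G ≠ 0` vanishes on the forward orbit of the critical
hypersurface, there is a squarefree form `g` with `g ∣ g ∘ F` which all irreducible factors
of the Jacobian determinant divide.
-/

set_option autoImplicit false

namespace Pool.Agent.Helper58.PC

open MvPolynomial

section ufd

variable {R : Type} [CommRing R] [IsDomain R] [UniqueFactorizationMonoid R]

/-- The product of the prime factors with a given property, each taken once. -/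
theorem exists_sqfree_part {G : R} (hG : G ≠ 0) (p : R → Prop)
    (hp : ∀ a b, Associated a b → p a → p b) :
    ∃ g : R, g ≠ 0 ∧ Squarefree g ∧ g ∣ G ∧ ∀ P : R, Prime P → (P ∣ g ↔ P ∣ G ∧ p P) := by
  classical
  induction G using UniqueFactorizationMonoid.induction_on_prime with
  | h₁ => exact absurd rfl hG
  | h₂ x hx =>
    refine ⟨1, one_ne_zero, squarefree_one, one_dvd _, fun P hP => ⟨fun h => ?_, fun h => ?_⟩⟩
    · exact absurd (isUnit_of_dvd_one h) hP.not_isUnit
    · exact absurd (isUnit_of_dvd_unit h.1 hx) hP.not_isUnit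
  | h₃ a q ha hq ih =>
    obtain ⟨g, hg0, hsq, hga, hP⟩ := ih ha
    by_cases hqg : q ∣ g ∨ ¬ p q
    · refine ⟨g, hg0, hsq, hga.mul_left _, fun P hP' => ⟨fun h => ?_, fun h => ?_⟩⟩
      · have h1 := (hP P hP').1 h
        exact ⟨h1.1.mul_left _, h1.2⟩
      · rcases hP'.dvd_or_dvd h.1 with h1 | h1
        · have hass : Associated P q := hP'.associated_of_dvd hq h1
          rcases hqg with h2 | h2
          · exact h1.trans h2
          · exact absurd (hp P q hass h.2) h2
        · exact (hP P hP').2 ⟨h1, h.2⟩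
    · push Not at hqg
      obtain ⟨hqg, hpq⟩ := hqg
      refine ⟨q * g, mul_ne_zero hq.ne_zero hg0, ?_, mul_dvd_mul_left q hga,
        fun P hP' => ⟨fun h => ?_, fun h => ?_⟩⟩
      · -- squarefree
        intro x hx
        by_contra hxu
        have hx0 : x ≠ 0 := by
          rintro rfl
          rw [zero_mul, zero_dvd_iff] at hx
          exact mul_ne_zero hq.ne_zero hg0 hx
        obtain ⟨r, hr, hrx⟩ := WfDvdMonoid.exists_irreducible_factor hxu hx0
        have hrp : Prime r := hr.prime
        have hrr : r * r ∣ q * g := (mul_dvd_mul hrx hrx).trans hx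
        by_cases hrq : r ∣ q
        · have hass : Associated r q := hrp.associated_of_dvd hq hrq
          have h1 : q * q ∣ q * g := (mul_dvd_mul hass.symm.dvd hass.symm.dvd).trans hrr
          exact hqg ((mul_dvd_mul_iff_left hq.ne_zero).1 h1)
        · have h1 : r ∣ g := by
            have h2 : r ∣ q * g := (dvd_mul_right r r).trans hrr
            rcases hrp.dvd_or_dvd h2 with h | h
            · exact absurd h hrq
            · exact h
          obtain ⟨g', rfl⟩ := h1
          have h3 : r ∣ q * g' := by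
            have h4 : r * r ∣ r * (q * g') := by
              rw [show r * (q * g') = q * (r * g') by ring]
              exact hrr
            exact (mul_dvd_mul_iff_left hrp.ne_zero).1 h4
          rcases hrp.dvd_or_dvd h3 with h | h
          · exact hrq h
          · exact hrp.not_isUnit (hsq r (mul_dvd_mul_left r h))
      · rcases hP'.dvd_or_dvd h with h1 | h1
        · exact ⟨h1.mul_right _, hp q P (hP'.associated_of_dvd hq h1).symm hpq⟩
        · have h2 := (hP P hP').1 h1
          exact ⟨h2.1.mul_left _, h2.2⟩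
      · rcases hP'.dvd_or_dvd h.1 with h1 | h1
        · exact h1.mul_right _
        · exact ((hP P hP').2 ⟨h1, h.2⟩).mul_left _

/-- A prime which divides `ψ G` divides `ψ Q` for a prime factor `Q` of `G`. -/
theorem exists_factor {S : Type} [CommRing S] (ψ : R →+* S) {P : S} (hP : Prime P) {G : R}
    (hG : G ≠ 0) (h : P ∣ ψ G) : ∃ Q : R, Prime Q ∧ Q ∣ G ∧ P ∣ ψ Q := by
  classical
  induction G using UniqueFactorizationMonoid.induction_on_prime with
  | h₁ => exact absurd rfl hG
  | h₂ x hx => exact absurd (isUnit_of_dvd_unit h (hx.map ψ)) hP.not_isUnit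
  | h₃ a q ha hq ih =>
    rw [map_mul] at h
    rcases hP.dvd_or_dvd h with h1 | h1
    · exact ⟨q, hq, dvd_mul_right _ _, h1⟩
    · obtain ⟨Q, hQ, hQa, hPQ⟩ := ih ha h1
      exact ⟨Q, hQ, hQa.mul_left _, hPQ⟩

end ufd

section comp

variable {ι k : Type} [Field k]

/-- The `n`-fold composition with `F`. -/
noncomputable def cmp (F : ι → MvPolynomial ι k) : ℕ → (MvPolynomial ι k →+* MvPolynomial ι k)
  | 0 => RingHom.id _
  | n + 1 => (cmp F n).comp (aeval F : MvPolynomial ι k →ₐ[k] MvPolynomial ι k).toRingHom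

theorem cmp_zero (F : ι → MvPolynomial ι k) (A : MvPolynomial ι k) : cmp F 0 A = A := rfl

theorem cmp_succ (F : ι → MvPolynomial ι k) (n : ℕ) (A : MvPolynomial ι k) :
    cmp F (n + 1) A = cmp F n (aeval F A) := rfl

theorem eval_aeval (F : ι → MvPolynomial ι k) (A : MvPolynomial ι k) (x : ι → k) :
    eval x (aeval F A) = eval (fun i => eval x (F i)) A := by
  rw [← coe_aeval_eq_eval, ← coe_aeval_eq_eval]
  change aeval x (aeval F A) = aeval (fun i => aeval x (F i)) A
  rw [← comp_aeval_apply]

theorem eval_cmp (F : ι → MvPolynomial ι k) (n : ℕ) (A : MvPolynomial ι k) (x : ι → k) :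
    eval x (cmp F n A) = eval ((fun y : ι → k => fun i => eval y (F i))^[n] x) A := by
  induction n generalizing A with
  | zero => rfl
  | succ n ih =>
    rw [cmp_succ, ih, eval_aeval, Function.iterate_succ_apply']

variable [Fintype ι] [DecidableEq ι] [IsAlgClosed k]

theorem cmp_injective {d : ℕ} (hd : 0 < d) {F : ι → MvPolynomial ι k}
    (hhom : ∀ i, (F i).IsHomogeneous d)
    (hnz : ∀ x : ι → k, (∀ i, aeval x (F i) = 0) → x = 0) (n : ℕ) :
    Function.Injective (cmp F n) := by
  induction n with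
  | zero => exact fun a b h => h
  | succ n ih =>
    exact ih.comp (aeval_injective hd hhom hnz)

theorem cmp_finite {d : ℕ} (hd : 0 < d) {F : ι → MvPolynomial ι k}
    (hhom : ∀ i, (F i).IsHomogeneous d)
    (hnz : ∀ x : ι → k, (∀ i, aeval x (F i) = 0) → x = 0) (n : ℕ) :
    (cmp F n).Finite := by
  induction n with
  | zero => exact RingHom.Finite.id _
  | succ n ih => exact ih.comp (aeval_finite hd hhom hnz)

end comp

variable {ι k : Type} [Fintype ι] [DecidableEq ι] [Field k] [IsAlgClosed k]

/-- **(A2)** The forward orbit of the critical hypersurface is contained in the zero set of the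
form `G ≠ 0`. Then there is a squarefree form `g` with `g ∣ g ∘ F` which all irreducible
factors of the Jacobian determinant divide. -/
theorem exists_post_gen {d : ℕ} (hd : 0 < d) {F : ι → MvPolynomial ι k}
    (hhom : ∀ i, (F i).IsHomogeneous d)
    (hnz : ∀ x : ι → k, (∀ i, aeval x (F i) = 0) → x = 0) {G : MvPolynomial ι k} {m : ℕ}
    (hG : G.IsHomogeneous m) (hG0 : G ≠ 0)
    (h : ∀ x : ι → k, eval x (Matrix.of fun i j => pderiv j (F i)).det = 0 →
      ∀ n, eval ((fun y : ι → k => fun i => eval y (F i))^[n] x) G = 0) :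
    ∃ (g : MvPolynomial ι k) (D : ℕ), g.IsHomogeneous D ∧ Squarefree g ∧ g ∣ G ∧
      g ∣ aeval F g ∧
        ∀ P, Irreducible P → P ∣ (Matrix.of fun i j => pderiv j (F i)).det → P ∣ g := by
  classical
  set J := (Matrix.of fun i j => pderiv j (F i)).det with hJ
  -- the forward orbit of a component is contained in `G = 0`
  have h1 : ∀ P, Prime P → P ∣ J → ∀ n, P ∣ cmp F n G := by
    intro P hP hPJ n
    refine dvd_of_zeros hP fun x hx => ?_
    rw [eval_cmp]
    refine h x ?_ n
    obtain ⟨c, hc⟩ := hPJ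
    rw [hc, map_mul, hx, zero_mul]
  -- the components of the closure of the forward orbit
  obtain ⟨g, hg0, hsq, hgG, hgP⟩ := exists_sqfree_part hG0
    (fun Q => ∃ (P : MvPolynomial ι k) (n : ℕ), Prime P ∧ P ∣ J ∧ P ∣ cmp F n Q) (by
      rintro a b hab ⟨P, n, hP, hPJ, hPn⟩
      exact ⟨P, n, hP, hPJ, hPn.trans (map_dvd _ hab.dvd)⟩)
  obtain ⟨D, -, hgh⟩ := Pool.Agent.Helper30.TP.form_of_dvd hG hG0 hgG
  refine ⟨g, D, hgh, hsq, hgG, ?_, ?_⟩
  · refine dvd_of_sqfree hg0 hsq fun Q hQ hQg => ?_
    obtain ⟨hQG, P, n, hP, hPJ, hPn⟩ := (hgP Q hQ).1 hQg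
    obtain ⟨Q', hQ', hQ'G, hPQ'⟩ := exists_factor (cmp F (n + 1)) hP hG0 (h1 P hP hPJ (n + 1))
    have h2 : Q' ∣ g := (hgP Q' hQ').2 ⟨hQ'G, P, n + 1, hP, hPJ, hPQ'⟩
    have h3 : Q ∣ aeval F Q' :=
      dvd_of_finite (cmp F n) (cmp_finite hd hhom hnz n) (cmp_injective hd hhom hnz n) hP hQ
        hPn (by rw [← cmp_succ]; exact hPQ')
    exact h3.trans (map_dvd _ h2)
  · intro P hP hPJ
    exact (hgP P hP.prime).2 ⟨h1 P hP.prime hPJ 0, P, 0, hP.prime, hPJ, dvd_rfl⟩

end Pool.Agent.Helper58.PC
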