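import Pool.Agent.Helper65.PC.Alg
import Pool.Agent.Helper30.TP.Form

/-!
# The post-critical form

`k` algebraically closed. If the form `G ≠ 0` vanishes on the critical curve and its zero set is
stable under `F`, then there is a squarefree form `g` with `g ∣ g ∘ F` and such that all
prime factors of the Jacobian determinant divide `g`.
-/

set_option autoImplicit false

namespace Pool.Agent.Helper58.PC

open MvPolynomial

section ufd

variable {R : Type} [CommRing R] [IsDomain R] [UniqueFactorizationMonoid R]

/-- The squarefree part. -/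
theorem exists_sqfree {G : R} (hG : G ≠ 0) :
    ∃ g : R, g ≠ 0 ∧ Squarefree g ∧ g ∣ G ∧ ∀ P : R, Prime P → P ∣ G → P ∣ g := by
  classical
  induction G using UniqueFactorizationMonoid.induction_on_prime with
  | h₁ => exact absurd rfl hG
  | h₂ x hx => exact ⟨1, one_ne_zero, squarefree_one, one_dvd _, fun P hP hPx =>
      absurd (isUnit_of_dvd_unit hPx hx) hP.not_isUnit⟩
  | h₃ a p ha hp ih =>
    obtain ⟨g, hg0, hsq, hga, hP⟩ := ih ha
    by_cases hpg : p ∣ g
    · refine ⟨g, hg0, hsq, hga.mul_left _, fun P hP' hPa => ?_⟩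
      rcases hP'.dvd_or_dvd hPa with h | h
      · exact h.trans hpg
      · exact hP P hP' h
    · refine ⟨p * g, mul_ne_zero hp.ne_zero hg0, ?_, mul_dvd_mul_left p hga,
        fun P hP' hPa => ?_⟩
      · intro x hx
        by_contra hxu
        -- a prime factor of `x`
        have hx0 : x ≠ 0 := by
          rintro rfl
          rw [zero_mul, zero_dvd_iff] at hx
          exact mul_ne_zero hp.ne_zero hg0 hx
        obtain ⟨q, hq, hqx⟩ := WfDvdMonoid.exists_irreducible_factor hxu hx0
        have hqp : Prime q := hq.prime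
        have hqq : q * q ∣ p * g := (mul_dvd_mul hqx hqx).trans hx
        by_cases hqp' : q ∣ p
        · -- `q` is associated to `p`
          have hass : Associated q p := hqp.associated_of_dvd hp hqp'
          have h1 : p * p ∣ p * g := (mul_dvd_mul hass.symm.dvd hass.symm.dvd).trans hqq
          exact hpg ((mul_dvd_mul_iff_left hp.ne_zero).1 h1)
        · have h1 : q ∣ g := by
            have h2 : q ∣ p * g := (dvd_mul_right q q).trans hqq
            rcases hqp.dvd_or_dvd h2 with h | h
            · exact absurd h hqp'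
            · exact h
          obtain ⟨g', rfl⟩ := h1
          have h3 : q ∣ p * g' := by
            have h4 : q * q ∣ q * (p * g') := by
              rw [show q * (p * g') = p * (q * g') by ring]
              exact hqq
            exact (mul_dvd_mul_iff_left hqp.ne_zero).1 h4
          rcases hqp.dvd_or_dvd h3 with h | h
          · exact hqp' h
          · exact hqp.not_isUnit (hsq q (mul_dvd_mul_left q h))
      · rcases hP'.dvd_or_dvd hPa with h | h
        · exact h.mul_right _
        · exact (hP P hP' h).mul_left _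

/-- A squarefree element divides `h` if all its prime factors do. -/
theorem dvd_of_sqfree {g h : R} (hg0 : g ≠ 0) (hsq : Squarefree g)
    (hP : ∀ P : R, Prime P → P ∣ g → P ∣ h) : g ∣ h := by
  classical
  induction g using UniqueFactorizationMonoid.induction_on_prime with
  | h₁ => exact absurd rfl hg0
  | h₂ x hx => exact hx.dvd
  | h₃ a p ha hp ih =>
    have h1 : a ∣ h := ih ha (hsq.squarefree_of_dvd (dvd_mul_left _ _))
      fun P hP' hPa => hP P hP' (hPa.mul_left _)
    obtain ⟨b, rfl⟩ := h1
    have h2 : p ∣ a * b := hP p hp (dvd_mul_right _ _)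
    rcases hp.dvd_or_dvd h2 with h3 | h3
    · exfalso
      exact hp.not_isUnit (hsq p (mul_dvd_mul_left p h3))
    · rw [mul_comm p a]
      exact mul_dvd_mul_left a h3

end ufd

variable {ι : Type} [Fintype ι] {k : Type} [Field k] [IsAlgClosed k]

/-- The Nullstellensatz for a prime polynomial. -/
theorem dvd_of_zeros {P h : MvPolynomial ι k} (hP : Prime P)
    (hz : ∀ x : ι → k, eval x P = 0 → eval x h = 0) : P ∣ h := by
  have h1 : h ∈ (Ideal.span {P}).radical := by
    rw [← MvPolynomial.vanishingIdeal_zeroLocus_eq_radical (K := k)]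
    rw [MvPolynomial.mem_vanishingIdeal_iff]
    intro x hx
    rw [MvPolynomial.mem_zeroLocus_iff] at hx
    have h2 := hx P (Ideal.subset_span rfl)
    have h3 := hz x (by rw [← h2]; rfl)
    rw [← h3]; rfl
  have h2 : (Ideal.span {P}).IsPrime := (Ideal.span_singleton_prime hP.ne_zero).2 hP
  rw [h2.isRadical.radical, Ideal.mem_span_singleton] at h1
  exact h1

/-- **(A2)** The form `G ≠ 0` vanishes on the critical set, and its zero set is mapped into itself.
Then there is a squarefree form `g` with `g ∣ g ∘ F` which every prime factor of the Jacobian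
determinant divides. -/
theorem exists_stable [DecidableEq ι] {F : ι → MvPolynomial ι k} {G : MvPolynomial ι k} {e : ℕ}
    (hGh : G.IsHomogeneous e) (hG0 : G ≠ 0)
    (hcrit : ∀ x : ι → k, eval x (Matrix.of fun i j => pderiv j (F i)).det = 0 → eval x G = 0)
    (hstab : ∀ x : ι → k, eval x G = 0 → eval (fun i => eval x (F i)) G = 0) :
    ∃ (g : MvPolynomial ι k) (e' : ℕ), g.IsHomogeneous e' ∧ g ≠ 0 ∧ Squarefree g ∧ g ∣ G ∧
      g ∣ aeval F g ∧
      ∀ P, Irreducible P → P ∣ (Matrix.of fun i j => pderiv j (F i)).det → P ∣ g := by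
  classical
  obtain ⟨g, hg0, hsq, hgG, hP⟩ := exists_sqfree hG0
  obtain ⟨e', -, hgh⟩ := Pool.Agent.Helper30.TP.form_of_dvd hGh hG0 hgG
  have hgz : ∀ x : ι → k, eval x G = 0 → eval x g = 0 := by
    intro x hx
    -- every prime factor of `G` divides `g`
    by_contra hgx
    have : ∀ H : MvPolynomial ι k, H ≠ 0 → (∀ P, Prime P → P ∣ H → P ∣ g) → eval x H ≠ 0 := by
      intro H hH
      induction H using UniqueFactorizationMonoid.induction_on_prime with
      | h₁ => exact absurd rfl hH
      | h₂ u hu => exact fun _ => (hu.map (eval x)).ne_zero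
      | h₃ a p ha hp ih =>
        intro hd
        rw [map_mul]
        refine mul_ne_zero (fun h => hgx ?_) (ih ha fun P hP' hPa => hd P hP' (hPa.mul_left _))
        obtain ⟨c, hc⟩ := hd p hp (dvd_mul_right _ _)
        rw [hc, map_mul, h, zero_mul]
    exact this G hG0 hP hx
  refine ⟨g, e', hgh, hg0, hsq, hgG, ?_, ?_⟩
  · refine dvd_of_sqfree hg0 hsq fun P hP' hPg => dvd_of_zeros hP' fun x hx => ?_
    obtain ⟨c, hc⟩ := hPg.trans hgG
    have h1 : eval x G = 0 := by rw [hc, map_mul, hx, zero_mul]
    have h2 := hgz _ (hstab x h1)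
    have h3 : eval x (aeval F g) = eval (fun i => eval x (F i)) g := by
      rw [← coe_aeval_eq_eval, ← coe_aeval_eq_eval]
      change aeval x (aeval F g) = aeval (fun i => aeval x (F i)) g
      rw [← comp_aeval_apply]
    rw [h3]
    exact h2
  · intro P hPirr hPJ
    refine hP P hPirr.prime (dvd_of_zeros hPirr.prime fun x hx => hcrit x ?_)
    obtain ⟨c, hc⟩ := hPJ
    rw [hc, map_mul, hx, zero_mul]

end Pool.Agent.Helper58.PC
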