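import Pool.Agent.Helper65.PC.Alg
import Pool.Agent.Helper58.PC.Curve

/-!
# The image of a hypersurface under a finite map is a hypersurface

Norm argument: if `A → B` is finite and injective, `A` factorial, `B` normal, `P` a prime element of
`B`, `Q` a prime element of `A` with `P ∣ Q`, then `P ∣ R` implies `Q ∣ R` for `R` in `A`.
-/

set_option autoImplicit false

namespace Pool.Agent.Helper58.PC

open MvPolynomial

attribute [local instance] FractionRing.liftAlgebra

/-- Contraction of a principal prime along a finite injective map. -/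
theorem dvd_of_finite {A B : Type} [CommRing A] [IsDomain A] [UniqueFactorizationMonoid A]
    [CommRing B] [IsDomain B] [IsIntegrallyClosed B] (φ : A →+* B) (hfin : φ.Finite)
    (hinj : Function.Injective φ) {P : B} (hP : Prime P) {Q R : A} (hQ : Prime Q)
    (h1 : P ∣ φ Q) (h2 : P ∣ φ R) : Q ∣ R := by
  let _ : Algebra A B := φ.toAlgebra
  have : Module.Finite A B := hfin
  have : FaithfulSMul A B := (faithfulSMul_iff_algebraMap_injective A B).2 hinj
  have : Module.IsTorsionFree A B := inferInstance
  have hno : ∀ a : A, Algebra.intNorm A B (algebraMap A B a) =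
      a ^ Module.finrank (FractionRing A) (FractionRing B) := by
    intro a
    apply IsFractionRing.injective A (FractionRing A)
    rw [Algebra.algebraMap_intNorm_fractionRing, ← IsScalarTower.algebraMap_apply,
      IsScalarTower.algebraMap_apply A (FractionRing A) (FractionRing B), Algebra.norm_algebraMap,
      map_pow]
  set m := Module.finrank (FractionRing A) (FractionRing B) with hm
  have h3 : Algebra.intNorm A B P ∣ Q ^ m := by
    rw [← hno]
    exact map_dvd _ h1
  have h4 : Algebra.intNorm A B P ∣ R ^ m := by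
    rw [← hno]
    exact map_dvd _ h2
  obtain ⟨i, -, hi⟩ := (dvd_prime_pow hQ m).1 h3
  rcases Nat.eq_zero_or_pos i with hi0 | hi0
  · exfalso
    rw [hi0, pow_zero, associated_one_iff_isUnit] at hi
    exact hP.not_isUnit (isUnit_of_dvd_unit (Algebra.dvd_algebraMap_intNorm_self A B P)
      (hi.map (algebraMap A B)))
  · have h5 : Q ∣ Algebra.intNorm A B P :=
      (dvd_pow_self Q hi0.ne').trans hi.symm.dvd
    exact hQ.dvd_of_dvd_pow (h5.trans h4)

section endo

variable {ι k : Type} [Fintype ι] [DecidableEq ι] [Field k] [IsAlgClosed k]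

/-- `g ↦ g ∘ F` is injective. -/
theorem aeval_injective {d : ℕ} (hd : 0 < d) {F : ι → MvPolynomial ι k}
    (hhom : ∀ i, (F i).IsHomogeneous d)
    (hnz : ∀ x : ι → k, (∀ i, aeval x (F i) = 0) → x = 0) :
    Function.Injective (aeval F : MvPolynomial ι k →ₐ[k] MvPolynomial ι k) := by
  have hint := Pool.Agent.Helper65.PC.isIntegral_adjoin (L := k) hd hhom hnz
  have : Algebra.IsIntegral (Algebra.adjoin k (Set.range F)) (MvPolynomial ι k) := ⟨hint⟩
  have : Algebra.IsAlgebraic (Algebra.adjoin k (Set.range F)) (MvPolynomial ι k) :=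
    inferInstance
  have h := Algebra.IsAlgebraic.isTranscendenceBasis_of_le_trdeg_of_finite k F (by
    rw [MvPolynomial.trdeg_of_isDomain, Cardinal.lift_id])
  exact h.1

/-- `g ↦ g ∘ F` is finite. -/
theorem aeval_finite {d : ℕ} (hd : 0 < d) {F : ι → MvPolynomial ι k}
    (hhom : ∀ i, (F i).IsHomogeneous d)
    (hnz : ∀ x : ι → k, (∀ i, aeval x (F i) = 0) → x = 0) :
    (aeval F : MvPolynomial ι k →ₐ[k] MvPolynomial ι k).toRingHom.Finite := by
  have hint := Pool.Agent.Helper65.PC.isIntegral_adjoin (L := k) hd hhom hnz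
  have h1 : (aeval F : MvPolynomial ι k →ₐ[k] MvPolynomial ι k).toRingHom.IsIntegral := by
    intro b
    obtain ⟨p, hp, h0⟩ := hint b
    let ρ : MvPolynomial ι k →+* Algebra.adjoin k (Set.range F) :=
      ((aeval F : MvPolynomial ι k →ₐ[k] MvPolynomial ι k).codRestrict
        (Algebra.adjoin k (Set.range F)) (fun x => by
          rw [Algebra.adjoin_range_eq_range_aeval]; exact ⟨x, rfl⟩)).toRingHom
    have hρ : Function.Surjective ρ := by
      rintro ⟨y, hy⟩
      rw [Algebra.adjoin_range_eq_range_aeval] at hy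
      obtain ⟨x, rfl⟩ := hy
      exact ⟨x, rfl⟩
    obtain ⟨q, hq, -, hqm⟩ := Polynomial.lifts_and_natDegree_eq_and_monic
      (f := ρ) (p := p) (by
        rw [Polynomial.mem_lifts]
        exact Polynomial.map_surjective ρ hρ p) hp
    refine ⟨q, hqm, ?_⟩
    rw [← h0, ← hq, Polynomial.eval₂_map]
    rfl
  refine h1.to_finite ?_
  have h2 : (algebraMap k (MvPolynomial ι k)).FiniteType := by
    rw [RingHom.finiteType_algebraMap]
    infer_instance
  exact RingHom.FiniteType.of_comp_finiteType (f := algebraMap k (MvPolynomial ι k)) (by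
    rw [show (aeval F : MvPolynomial ι k →ₐ[k] MvPolynomial ι k).toRingHom.comp
      (algebraMap k (MvPolynomial ι k)) = algebraMap k (MvPolynomial ι k) from
        (aeval F : MvPolynomial ι k →ₐ[k] MvPolynomial ι k).comp_algebraMap]
    exact h2)

end endo

end Pool.Agent.Helper58.PC
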